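import Pool.Agent.Y507.CMC.Stm

/-!
The area of the image of the unit disk (job CM-VOL).
-/

set_option autoImplicit false

open MeasureTheory Set

namespace Pool.Agent.Y681.CMC.Vol

lemma vol_region (f g : ℝ → ℝ) (hf : Continuous f) (hg : Continuous g)
    (hfg : ∀ x ∈ Ioo (-1 : ℝ) 1, f x ≤ g x) :
    volume {x : EuclideanSpace ℝ (Fin 2) | x 0 ∈ Ioo (-1 : ℝ) 1 ∧
      x 1 ∈ Ioo (f (x 0)) (g (x 0))} = ENNReal.ofReal (∫ x in (-1 : ℝ)..1, (g x - f x)) := by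
  have hφ : MeasurePreserving (fun x : EuclideanSpace ℝ (Fin 2) => ((x 0, x 1) : ℝ × ℝ))
      volume volume :=
    (volume_preserving_finTwoArrow ℝ).comp
      (EuclideanSpace.volume_preserving_symm_measurableEquiv_toLp (Fin 2))
  have hpre : {x : EuclideanSpace ℝ (Fin 2) | x 0 ∈ Ioo (-1 : ℝ) 1 ∧
      x 1 ∈ Ioo (f (x 0)) (g (x 0))} =
      (fun x : EuclideanSpace ℝ (Fin 2) => ((x 0, x 1) : ℝ × ℝ)) ⁻¹'
        (regionBetween f g (Ioo (-1 : ℝ) 1)) := rfl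
  have hm : MeasurableSet (regionBetween f g (Ioo (-1 : ℝ) 1)) :=
    measurableSet_regionBetween hf.measurable hg.measurable measurableSet_Ioo
  have hif : ∀ u : ℝ → ℝ, Continuous u → IntegrableOn u (Ioo (-1 : ℝ) 1) volume := fun u hu =>
    (hu.integrableOn_Icc (a := -1) (b := 1)).mono_set Ioo_subset_Icc_self
  rw [hpre, hφ.measure_preimage hm.nullMeasurableSet, Measure.volume_eq_prod,
    volume_regionBetween_eq_integral (hif f hf) (hif g hg) measurableSet_Ioo hfg,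
    intervalIntegral.integral_of_le (by norm_num), ← integral_Ioc_eq_integral_Ioo]
  rfl

lemma dom_eq (g k : ℝ → ℝ) (hk : ∀ x, 0 < k x) :
    {x : EuclideanSpace ℝ (Fin 2) | x 0 ^ 2 + ((x 1 - g (x 0)) / k (x 0)) ^ 2 < 1} =
    {x : EuclideanSpace ℝ (Fin 2) | x 0 ∈ Ioo (-1 : ℝ) 1 ∧
      x 1 ∈ Ioo (g (x 0) - k (x 0) * √(1 - x 0 ^ 2)) (g (x 0) + k (x 0) * √(1 - x 0 ^ 2))} := by
  ext x
  obtain ⟨a, ha⟩ : ∃ a, a = x 0 := ⟨_, rfl⟩
  obtain ⟨b, hb⟩ : ∃ b, b = x 1 := ⟨_, rfl⟩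
  change x 0 ^ 2 + ((x 1 - g (x 0)) / k (x 0)) ^ 2 < 1 ↔ (x 0 ∈ Ioo (-1 : ℝ) 1 ∧
      x 1 ∈ Ioo (g (x 0) - k (x 0) * √(1 - x 0 ^ 2)) (g (x 0) + k (x 0) * √(1 - x 0 ^ 2)))
  rw [← ha, ← hb]
  have hka := hk a
  obtain ⟨y, hy⟩ : ∃ y, y = (b - g a) / k a := ⟨_, rfl⟩
  have hby : b = g a + k a * y := by
    rw [hy]
    field_simp
    ring
  rw [← hy]
  constructor
  · intro h
    have h1 : a ^ 2 < 1 := by nlinarith [sq_nonneg y]
    have h2 : |a| < 1 := (sq_lt_one_iff_abs_lt_one a).mp h1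
    have h3 : |y| < √(1 - a ^ 2) := by
      apply Real.lt_sqrt_of_sq_lt
      rw [sq_abs]
      linarith
    obtain ⟨h4, h5⟩ := abs_lt.mp h3
    refine ⟨abs_lt.mp h2, ?_, ?_⟩
    · rw [hby]
      have := mul_lt_mul_of_pos_left h4 hka
      linarith
    · rw [hby]
      have := mul_lt_mul_of_pos_left h5 hka
      linarith
  · rintro ⟨h1, h2, h3⟩
    rw [hby] at h2 h3
    have h4 : k a * -√(1 - a ^ 2) < k a * y := by linarith
    have h5 : k a * y < k a * √(1 - a ^ 2) := by linarith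
    have h6 : |y| < √(1 - a ^ 2) :=
      abs_lt.mpr ⟨lt_of_mul_lt_mul_left h4 hka.le, lt_of_mul_lt_mul_left h5 hka.le⟩
    have h7 : |y| ^ 2 < 1 - a ^ 2 := (Real.lt_sqrt (abs_nonneg y)).mp h6
    rw [sq_abs] at h7
    linarith

lemma vol_dom (g k : ℝ → ℝ) (hg : Continuous g) (hk : Continuous k) (hk0 : ∀ x, 0 < k x) :
    volume {x : EuclideanSpace ℝ (Fin 2) | x 0 ^ 2 + ((x 1 - g (x 0)) / k (x 0)) ^ 2 < 1} =
      ENNReal.ofReal (∫ x in (-1 : ℝ)..1, 2 * k x * √(1 - x ^ 2)) := by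
  rw [dom_eq g k hk0, vol_region (fun t => g t - k t * √(1 - t ^ 2))
    (fun t => g t + k t * √(1 - t ^ 2)) (by fun_prop) (by fun_prop)]
  · congr 1
    refine intervalIntegral.integral_congr fun t _ => ?_
    ring
  · intro t _
    have := mul_nonneg (hk0 t).le (Real.sqrt_nonneg (1 - t ^ 2))
    linarith

lemma int_nonneg (k : ℝ → ℝ) (hk0 : ∀ x, 0 < k x) :
    0 ≤ ∫ x in (-1 : ℝ)..1, 2 * k x * √(1 - x ^ 2) := by
  refine intervalIntegral.integral_nonneg (by norm_num) fun t _ => ?_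
  have := mul_nonneg (hk0 t).le (Real.sqrt_nonneg (1 - t ^ 2))
  linarith

/-- **Area of the image of the unit disk.** -/
theorem thm : Pool.Agent.Y507.CMC.S_VOL := by
  intro g k hg hk hk0
  have h := vol_dom g k hg hk hk0
  change (volume {x : EuclideanSpace ℝ (Fin 2) |
    x 0 ^ 2 + ((x 1 - g (x 0)) / k (x 0)) ^ 2 < 1}).toReal = _
  rw [h, ENNReal.toReal_ofReal (int_nonneg k hk0)]

end Pool.Agent.Y681.CMC.Vol
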